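import Pool.Agent.X157.H.Red

set_option autoImplicit false

/-!
# Plane fat points: equal multiplicities, double and simple points, and their Cremona orbits

1. Fat point schemes with `n` points of multiplicity `m ≥ 1` and any numbers of double and of simple
   points impose maximal conditions in every degree at general points of the plane if `n ≥ 37`, or
   `n = 13`, or `n = 21`, or `n ≥ 16` is a square, or `n = 11` or `15` and there is another point.
2. So do all schemes `(d; w)` in the Cremona orbit of such a standard `(d'; w')`.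
3. For EVERY `n ≥ 10`: if in all degrees `e ≤ d'` the schemes with `n` points of one multiplicity
   `m' ≤ m` impose maximal conditions, then so does `(m ^ n, 2 ^ k, 1 ^ l)` in degree `d'`, and, if
   `(d'; w')` is standard, so do all `(d; w)` in its Cremona orbit.
-/

namespace Pool.Agent.Results.MP_1dafdd_ag.PlaneEqualAndDouble

open MvPolynomial Pool.Agent.TH167 Pool.Agent.TH167.SH Pool.Agent.TH167.SHDefs Pool.Agent.X157.H
  Pool.Agent.X157.W Pool.Agent.W609.CR Pool.Agent.TH442.NF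

/-- The fat point scheme with multiplicities `w i` at general points of the plane imposes maximal
conditions in degree `d`: this holds for all points off a hypersurface. -/
def MaximalConditions {k : ℕ} (d : ℕ) (w : Fin k → ℕ) : Prop :=
  ∃ F : MvPolynomial (Fin k × Fin 2) ℂ, F ≠ 0 ∧ ∀ P : Fin k → Fin 2 → ℂ,
    eval (fun ij : Fin k × Fin 2 => P ij.1 ij.2) F ≠ 0 →
      (Module.finrank ℂ ↥(sys P d w) : ℤ) =
        max 0 (((d + 2).choose 2 : ℤ) - ∑ i, ((w i + 1).choose 2 : ℤ))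

/-- On `n` of the points all multiplicities are `m`, at the other points they are at most `2`. -/
def EqualAndTwo {k : ℕ} (n m : ℕ) (w : Fin k → ℕ) : Prop :=
  ∃ S : Finset (Fin k), S.card = n ∧ (∀ i ∈ S, w i = m) ∧ ∀ i, i ∉ S → w i ≤ 2

/-- On `n` of the points all multiplicities are `m`, at the other points they are at most `2`, and
not all of these are zero. -/
def EqualAndMore {k : ℕ} (n m : ℕ) (w : Fin k → ℕ) : Prop :=
  ∃ S : Finset (Fin k), S.card = n ∧ (∀ i ∈ S, w i = m) ∧ (∀ i, i ∉ S → w i ≤ 2) ∧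
    ∃ i, i ∉ S ∧ 1 ≤ w i

/-- The vectors of part 1. -/
def Family {k : ℕ} (w : Fin k → ℕ) : Prop :=
  ∃ n m : ℕ, 1 ≤ m ∧
    ((EqualAndTwo n m w ∧ (37 ≤ n ∨ n = 13 ∨ n = 21 ∨ (16 ≤ n ∧ IsSquare n))) ∨
      (EqualAndMore n m w ∧ (n = 11 ∨ n = 15)))

/-- No three multiplicities have a sum larger than `d`. -/
def Standard {k : ℕ} (d : ℕ) (w : Fin k → ℕ) : Prop :=
  ∀ i j l, i ≠ j → i ≠ l → j ≠ l → w i + w j + w l ≤ d

theorem max_of {k : ℕ} {d : ℕ} {w : Fin k → ℕ}
    (h : ∃ F : MvPolynomial (Fin k × Fin 2) ℚ, F ≠ 0 ∧ ∀ {L : Type} [Field L] [CharZero L]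
      (P : Fin k → Fin 2 → L),
      MvPolynomial.aeval (fun ij : Fin k × Fin 2 => P ij.1 ij.2) F ≠ 0 →
        Pool.Agent.H932R3.ExpDim L w P d) : MaximalConditions d w := by
  obtain ⟨F, hF, hF'⟩ := h
  refine ⟨F.map (algebraMap ℚ ℂ), Pool.Agent.H932R3.map_ne_zero_of hF, fun P hP => ?_⟩
  rw [MvPolynomial.eval_map] at hP
  have h1 := hF' P hP
  rw [expDim_iff] at h1
  rw [sys_eq]
  exact h1

theorem orbit {k : ℕ} {d d' : ℕ} {w w' : Fin k → ℕ} (hk : 4 ≤ k)
    (h : ∃ F : MvPolynomial (Fin k × Fin 2) ℚ, F ≠ 0 ∧ ∀ {L : Type} [Field L] [CharZero L]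
      (P : Fin k → Fin 2 → L),
      MvPolynomial.aeval (fun ij : Fin k × Fin 2 => P ij.1 ij.2) F ≠ 0 →
        Pool.Agent.H932R3.ExpDim L w' P d') (hs : Standard d' w')
    (hc : Ch (cls d w) (cls d' w')) : MaximalConditions d w := by
  obtain ⟨F, hF, hF'⟩ := h
  refine max_of (to_open fun {K} _ _ P hP => ?_)
  exact up_enef hP hc (enef_of_std hk P hs)
    (hF' P fun h0 => hF (hP.eq_zero_of_aeval_eq_zero F h0))

theorem not_sp {n : ℕ} (hn : 10 ≤ n) {d m : ℕ}
    (h : 1 ≤ m → 3 * m ≤ d → MaximalConditions d (fun _ : Fin n => m)) (Q : Fin n → Fin 2 → ℂ)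
    (hQ : Gen Q) : ¬ Sp Q d m := by
  intro hSp
  rcases Nat.eq_zero_or_pos m with hm | hm
  · subst hm
    have h1 : Module.finrank ℂ ↥(VS (fun j => aff (Q j)) (fun _ : Fin n => 0) d) =
        (d + 2).choose 2 := by
      rw [vs_zero]
    have h3 := hSp.2
    rw [h1] at h3
    unfold chi at h3
    simp at h3
  · have h3 : 3 * m ≤ d := by
      have h4 := nag hn hQ hSp.1 hm
      have h5 : (3 : ℝ) ≤ √(n : ℝ) := by
        apply Real.le_sqrt_of_sq_le
        have : (10 : ℝ) ≤ n := by exact_mod_cast hn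
        linarith
      have h6 : (0 : ℝ) ≤ m := Nat.cast_nonneg m
      have h7 : 3 * (m : ℝ) ≤ d := by nlinarith
      exact_mod_cast h7
    obtain ⟨F, hF, hF'⟩ := h hm h3
    obtain ⟨x, hx⟩ : ∃ x : Fin n × Fin 2 → ℂ, eval x F ≠ 0 := by
      by_contra hcon
      push Not at hcon
      exact hF (MvPolynomial.funext fun x => by rw [hcon x, map_zero])
    have h4 := hF' (fun i j => x (i, j)) hx
    rw [sys_eq] at h4
    exact not_sp_of h4 Q hQ hSp

theorem open_family {k : ℕ} {w : Fin k → ℕ} (h : Family w) (d : ℕ) : 4 ≤ k ∧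
    ∃ F : MvPolynomial (Fin k × Fin 2) ℚ, F ≠ 0 ∧ ∀ {L : Type} [Field L] [CharZero L]
      (P : Fin k → Fin 2 → L),
      MvPolynomial.aeval (fun ij : Fin k × Fin 2 => P ij.1 ij.2) F ≠ 0 →
        Pool.Agent.H932R3.ExpDim L w P d := by
  obtain ⟨n, m, hm, h⟩ := h
  rcases h with ⟨⟨S, hS, hwS, hw2⟩, h⟩ | ⟨⟨S, hS, hwS, hw2, hex⟩, h⟩
  · have hn : 10 ≤ n := by omega
    have h' : 37 ≤ n ∨ n = 13 ∨ n = 21 ∨ IsSquare n := by
      rcases h with h | h | h | h
      · exact Or.inl h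
      · exact Or.inr (Or.inl h)
      · exact Or.inr (Or.inr (Or.inl h))
      · exact Or.inr (Or.inr (Or.inr h.2))
    have hk := Finset.card_le_univ S
    rw [Fintype.card_fin] at hk
    exact ⟨by omega, dim_open hn (good_of_uns (uns_of hn h')) hm hS hwS hw2
      (Or.inl (uns_of hn h')) d⟩
  · have hk := Finset.card_le_univ S
    rw [Fintype.card_fin] at hk
    exact ⟨by omega, dim_open (by omega) (good_eleven h) hm hS hwS hw2 (Or.inr hex) d⟩

theorem result :
    (∀ (k d : ℕ) (w : Fin k → ℕ), Family w → MaximalConditions d w) ∧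
    (∀ (k d d' : ℕ) (w w' : Fin k → ℕ), Family w' → Standard d' w' →
      Ch (cls d w) (cls d' w') → MaximalConditions d w) ∧
    (∀ (n m k d' : ℕ) (w' : Fin k → ℕ), 10 ≤ n → 1 ≤ m → EqualAndTwo n m w' →
      (∀ e ≤ d', ∀ m' ≤ m, 1 ≤ m' → 3 * m' ≤ e → MaximalConditions e (fun _ : Fin n => m')) →
        MaximalConditions d' w' ∧ (Standard d' w' → ∀ (d : ℕ) (w : Fin k → ℕ),
          Ch (cls d w) (cls d' w') → MaximalConditions d w)) := by
  refine ⟨fun k d w h => max_of (open_family h d).2, fun k d d' w w' h hs hc => ?_, ?_⟩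
  · obtain ⟨hk, h1⟩ := open_family h d'
    exact orbit hk h1 hs hc
  · intro n m k d' w' hn hm ⟨S, hS, hwS, hw2⟩ h
    have h1 := open_red hn hm (d := d') (fun e he m' hm' Q hQ =>
      not_sp hn (fun h1 h3 => h e he m' hm' h1 h3) Q hQ) hS hwS hw2
    have hk := Finset.card_le_univ S
    rw [Fintype.card_fin] at hk
    exact ⟨max_of h1, fun hs d w hc => orbit (by omega) h1 hs hc⟩

end Pool.Agent.Results.MP_1dafdd_ag.PlaneEqualAndDouble
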