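import Mathlib
import Pool.Agent.X214.NV.Dom

set_option autoImplicit false

/-!
# Fat points of nearly equal multiplicities in the plane impose maximal conditions

Let `v` take only the values `m`, `m + 1`, `m ≥ 1` arbitrary, on a set `S` of at least `36` of the
`n` points. Let the multiplicities `w` be at most `v` on `S`, and at most `1` at the other points.
If `w = v` on `S`, or `∑ (v i + 1).choose 2 ≤ (d + 2).choose 2` (sum over `S`), then the fat point scheme of the
multiplicities `w i` at `n` general points of the plane imposes maximal conditions in degree `d`.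
-/

namespace Pool.Agent.Results.MP_1dafdd_ag.PlaneNearUniformExplicit

open Pool.Agent.X214.NV

theorem result : ∀ (n d : ℕ) (w : Fin n → ℕ), Dominated d w →
    ∃ F : MvPolynomial (Fin n × Fin 2) ℂ, F ≠ 0 ∧
      ∀ P : Fin n → Fin 2 → ℂ,
        MvPolynomial.eval (fun ij : Fin n × Fin 2 => P ij.1 ij.2) F ≠ 0 →
          (Module.finrank ℂ
            ↥(MvPolynomial.homogeneousSubmodule (Fin 3) ℂ d ⊓
              Submodule.restrictScalars ℂ
                (⨅ i : Fin n,
                  (Ideal.span
                    ({MvPolynomial.X 0 - MvPolynomial.C (P i 0) * MvPolynomial.X 2,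
                      MvPolynomial.X 1 - MvPolynomial.C (P i 1) * MvPolynomial.X 2} :
                      Set (MvPolynomial (Fin 3) ℂ))) ^ (w i))) : ℤ)
          = max 0 ((Nat.choose (d + 2) 2 : ℤ) - ∑ i, (Nat.choose (w i + 1) 2 : ℤ)) := by
  intro n d w h
  obtain ⟨F, hF, hF'⟩ := dom_open h
  refine ⟨F.map (algebraMap ℚ ℂ), Pool.Agent.H932R3.map_ne_zero_of hF, fun P hP => ?_⟩
  rw [MvPolynomial.eval_map] at hP
  have h1 := hF' (L := ℂ) P hP
  unfold Pool.Agent.H932R3.ExpDim at h1
  rw [h1]
  have h2 : ∑ i, (Nat.choose (w i + 1) 2 : ℤ) = ((∑ i, Nat.choose (w i + 1) 2 : ℕ) : ℤ) := by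
    push_cast
    rfl
  rw [h2]
  omega

end Pool.Agent.Results.MP_1dafdd_ag.PlaneNearUniformExplicit
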