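import Pool.Agent.Results.MP_d03834_ag.SparseMultiplicities
import Pool.Agent.X134.UF.Dom

set_option autoImplicit false

/-!
# Plane fat points: multiplicities bounded by squares, primes, sparse sequences

Let `n ≥ 10` (the new cases are `n ≤ 36`). Call `m ≥ 1` good if ALL fat point schemes in the plane with the
following multiplicities impose maximal conditions for general points, in ALL degrees `d`: `n` of the
multiplicities are at most `m`, the others (any number) are at most `1`, and the first `n` are equal to `m` or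
`n m (m + 1) / 2 ≤ (d + 1) (d + 2) / 2`. The `m` which are not good have upper density at most `bad n < 1` along
all sequences with equidistributed `√n m / 3`, among the values of every nonconstant integral polynomial, among
the primes, and along `⌊α j ^ c⌋`, `c > 1`, for all `α > 0` outside one set of dimension less than `1`;
`bad n = 0` for `n ≥ 37`, `n = 13`, `n = 21`, squares, and `bad 10 < 0.163`, `bad 11 < 0.053`, `bad 15 < 0.146`.
-/

namespace Pool.Agent.Results.MP_1dafdd_ag.SparseMultiplicityBound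

open MvPolynomial Pool.Agent.X134.UD Pool.Agent.X134.UF
open Pool.Agent.H534R3.UDist (Weyl)
open MP_d03834_ag.SparseMultiplicities (bad bad_lt bad_ten bad_eleven bad_fifteen)

/-- The fat point scheme with multiplicities `w i` at general points of the plane imposes maximal
conditions in degree `d`: this holds for all points off a hypersurface. -/
def MaximalConditions {k : ℕ} (d : ℕ) (w : Fin k → ℕ) : Prop :=
  ∃ F : MvPolynomial (Fin k × Fin 2) ℂ, F ≠ 0 ∧ ∀ P : Fin k → Fin 2 → ℂ,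
    eval (fun ij : Fin k × Fin 2 => P ij.1 ij.2) F ≠ 0 →
      (Module.finrank ℂ
        ↥(homogeneousSubmodule (Fin 3) ℂ d ⊓ Submodule.restrictScalars ℂ
          (⨅ i : Fin k, (Ideal.span
            ({X 0 - C (P i 0) * X 2, X 1 - C (P i 1) * X 2} : Set (MvPolynomial (Fin 3) ℂ))) ^ (w i))) : ℤ) =
        max 0 (((d + 2).choose 2 : ℤ) - ∑ i, ((w i + 1).choose 2 : ℤ))

/-- all vectors of multiplicities dominated by `m ^ n` impose maximal conditions, in all degrees -/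
def Good (n m : ℕ) : Prop :=
  ∀ (k d : ℕ) (w : Fin k → ℕ), DominatedBy n m d w → MaximalConditions d w

/-- `m` is positive and not good -/
def Bad (n m : ℕ) : Prop := 1 ≤ m ∧ ¬ Good n m

theorem aeval_value {K : Type} [Field K] [CharZero K] {n : ℕ} (Φ : MvPolynomial (Fin n × Fin 2) ℤ)
    (Q : Fin n → Fin 2 → K) :
    MvPolynomial.aeval (fun ij : Fin n × Fin 2 => Q ij.1 ij.2) (Φ.map (Int.castRingHom ℚ)) =
      MP_d03834_ag.EffectiveEveryField.value Φ Q := by
  unfold MP_d03834_ag.EffectiveEveryField.value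
  rw [MvPolynomial.aeval_def, MvPolynomial.eval₂_map, MvPolynomial.eval_map]
  congr 1
  exact RingHom.ext_int _ _

theorem good_of {n m : ℕ} (h : MP_d03834_ag.SparseMultiplicities.Good n m) : Good n m := by
  obtain ⟨Φ, hΦ, -, -, H, -⟩ := h
  intro k d w hw
  have hF : Φ.map (Int.castRingHom ℚ) ≠ 0 := fun h0 =>
    hΦ (MvPolynomial.map_injective (Int.castRingHom ℚ) Int.cast_injective (by rw [h0, map_zero]))
  obtain ⟨G, hG, hG'⟩ := dom_open (m := m) (d := d) hF (fun K _ _ Q hQ => by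
    rw [aeval_value] at hQ
    have h1 := H K Q hQ d
    unfold MP_d03834_ag.EffectiveEveryField.Expected at h1
    unfold Pool.Agent.H932R3.ExpDim
    rw [Finset.sum_const, Finset.card_univ, Fintype.card_fin, smul_eq_mul]
    exact h1) hw
  refine ⟨G.map (algebraMap ℚ ℂ), fun h0 => hG (MvPolynomial.map_injective (algebraMap ℚ ℂ)
    (algebraMap ℚ ℂ).injective (by rw [h0, map_zero])), fun P hP => ?_⟩
  rw [MvPolynomial.eval_map] at hP
  have h1 := hG' ℂ P hP
  unfold Pool.Agent.H932R3.ExpDim at h1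
  rw [h1]
  have h2 : ∑ i, ((w i + 1).choose 2 : ℤ) = ((∑ i, (w i + 1).choose 2 : ℕ) : ℤ) := by
    push_cast
    rfl
  rw [h2]
  omega

theorem bad_of {n m : ℕ} (h : Bad n m) : MP_d03834_ag.SparseMultiplicities.Bad n m :=
  ⟨h.1, fun h1 => h.2 (good_of h1)⟩

theorem upperLE_mono {P Q : ℕ → Prop} {β : ℝ} (h : ∀ j, P j → Q j) (hQ : UpperLE Q β) : UpperLE P β := by
  intro δ hδ
  obtain ⟨N₀, H⟩ := hQ δ hδ
  refine ⟨N₀, fun N hN => le_trans ?_ (H N hN)⟩
  have h1 : {j : ℕ | j < N ∧ P j} ⊆ {j : ℕ | j < N ∧ Q j} := fun j hj => ⟨hj.1, h j hj.2⟩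
  have h2 : {j : ℕ | j < N ∧ Q j}.Finite := (Set.finite_lt_nat N).subset fun j hj => hj.1
  exact_mod_cast Set.ncard_le_ncard h1 h2

theorem upperLEPrimes_mono {P Q : ℕ → Prop} {β : ℝ} (h : ∀ j, P j → Q j) (hQ : UpperLEPrimes Q β) :
    UpperLEPrimes P β := by
  intro δ hδ
  obtain ⟨N₀, H⟩ := hQ δ hδ
  refine ⟨N₀, fun N hN => le_trans ?_ (H N hN)⟩
  have h1 : {j : ℕ | j ≤ N ∧ j.Prime ∧ P j} ⊆ {j : ℕ | j ≤ N ∧ j.Prime ∧ Q j} :=
    fun j hj => ⟨hj.1, hj.2.1, h j hj.2.2⟩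
  have h2 : {j : ℕ | j ≤ N ∧ j.Prime ∧ Q j}.Finite := (Set.finite_le_nat N).subset fun j hj => hj.1
  exact_mod_cast Set.ncard_le_ncard h1 h2

theorem result :
    (∀ n : ℕ, 10 ≤ n →
      (∀ x : ℕ → ℕ, Weyl (fun j => Real.sqrt n / 3 * x j) → UpperLE (fun j => Bad n (x j)) (bad n)) ∧
      (∀ P : Polynomial ℤ, 1 ≤ P.natDegree →
        UpperLE (fun j => ∃ m : ℕ, (m : ℤ) = P.eval (j : ℤ) ∧ Bad n m) (bad n)) ∧
      UpperLEPrimes (Bad n) (bad n)) ∧
    (∀ c : ℝ, 1 < c → ∃ κ : ℝ, 0 < κ ∧ κ < 1 ∧ ∃ E : Set ℝ, dimH E ≤ ENNReal.ofReal (1 - κ) ∧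
      ∀ α : ℝ, 0 < α → α ∉ E → ∀ n : ℕ, 10 ≤ n →
        UpperLE (fun j => Bad n ⌊α * (j : ℝ) ^ c⌋₊) (bad n)) ∧
    (∀ n : ℕ, 10 ≤ n → bad n < 1) ∧ bad 10 < 0.163 ∧ bad 11 < 0.053 ∧ bad 15 < 0.146 := by
  obtain ⟨h1, h2, h3⟩ := MP_d03834_ag.SparseMultiplicities.result
  refine ⟨fun n hn => ?_, fun c hc => ?_, h3⟩
  · obtain ⟨a1, a2, a3⟩ := h1 n hn
    refine ⟨fun x hx => upperLE_mono (fun j hj => bad_of hj) (a1 x hx),
      fun P hP => upperLE_mono (fun j hj => ?_) (a2 P hP), upperLEPrimes_mono (fun j hj => bad_of hj) a3⟩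
    obtain ⟨m, hm, hm2⟩ := hj
    exact ⟨m, hm, bad_of hm2⟩
  · obtain ⟨κ, hκ0, hκ1, E, hE, H⟩ := h2 c hc
    exact ⟨κ, hκ0, hκ1, E, hE, fun α hα hαE n hn =>
      upperLE_mono (fun j hj => bad_of hj) (H α hα hαE n hn)⟩

end Pool.Agent.Results.MP_1dafdd_ag.SparseMultiplicityBound
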